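import Pool.Agent.W211.AF.Stm

/-!
# The induction for the pattern sums
-/

set_option autoImplicit false

namespace Pool.Agent.W459.AFThin

open Pool.Agent.W211.AF FreeGroup

theorem tl_eq_length : ∀ π : Pat, none ∉ π → tl π = π.length
  | [], _ => rfl
  | x :: π, h => by
    have h1 : none ∉ π := fun h' => h (List.mem_cons_of_mem _ h')
    have h2 : x ≠ none := fun h' => h (h' ▸ List.mem_cons_self)
    simp [tl, h1, h2]

theorem tl_none_cons (π : Pat) : tl (none :: π) = tl π := by
  by_cases h : none ∈ π
  · simp [tl, h]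
  · rw [tl_eq_length π h]
    simp [tl, h]

theorem tl_some_cons (y : Lt) (π : Pat) : tl π ≤ tl (some y :: π) := by
  by_cases h : none ∈ π
  · simp [tl, h]
  · rw [tl_eq_length π h]
    simp [tl, h]

theorem KL_nonneg {K : G → ℝ} (hK : ∀ g, 0 ≤ K g) (l : List Lt) : 0 ≤ KL K l := by
  unfold KL
  split_ifs
  · exact hK _
  · exact le_rfl

theorem T_nonneg {K : G → ℝ} (hK : ∀ g, 0 ≤ K g) (M : ℕ) : 0 ≤ T K M :=
  Finset.sum_nonneg fun l _ => KL_nonneg hK l

/-- The real inequality of one step. -/
theorem real_step {al Tm Fn t rw : ℝ} (hal : al ≤ 5591 / 10000) (hal0 : 0 ≤ al)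
    (hT : 0 ≤ Tm) (hF : 0 ≤ Fn) (ht : 0 ≤ t) (hw : 1 ≤ rw) (nn ng : Prop) [Decidable nn]
    [Decidable ng] (hnn : ¬ nn → rw = 1) {P P1 P2 P3 : ℝ}
    (hP : P ≤ (if nn then 0 else Tm) + Fn + al * P1 + (if ng then al * P2 else 0) + P3)
    (h1 : P1 ≤ rw * (3 / 2) * (12 / 1000 * Tm + 8 * Fn + t))
    (h2 : ng → P2 ≤ rw * (3 * ((if nn then 12 / 1000 * Tm + 8 * Fn else 2 * Tm + 8 * Fn) + t)))
    (h3 : P3 ≤ 9 / 10000 * (rw * (2 * Tm + 8 * Fn + t))) :
    P ≤ rw * ((if ng then 3 else 1) *
      ((if nn then 12 / 1000 * Tm + 8 * Fn else 2 * Tm + 8 * Fn) + 9 / 10 * t)) := by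
  have hw0 : 0 ≤ rw := by linarith
  have a1 : al * P1 ≤ 5591 / 10000 * (rw * (3 / 2) * (12 / 1000 * Tm + 8 * Fn + t)) := by
    refine (mul_le_mul_of_nonneg_left h1 hal0).trans ?_
    exact mul_le_mul_of_nonneg_right hal (by positivity)
  have a2 : ng → al * P2 ≤ 5591 / 10000 * (rw * (3 * ((if nn then 12 / 1000 * Tm + 8 * Fn
      else 2 * Tm + 8 * Fn) + t))) := by
    intro hn
    refine (mul_le_mul_of_nonneg_left (h2 hn) hal0).trans ?_
    refine mul_le_mul_of_nonneg_right hal ?_
    split_ifs <;> positivity
  have p1 : 0 ≤ rw * Tm := by positivity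
  have p2 : 0 ≤ rw * Fn := by positivity
  have p3 : 0 ≤ rw * t := by positivity
  have p4 : Fn ≤ rw * Fn := by nlinarith
  by_cases hn : nn
  · simp only [hn, if_true] at hP a2 h2 ⊢
    by_cases hg : ng
    · simp only [hg, if_true, true_implies] at hP a2 ⊢
      nlinarith
    · simp only [hg, if_false] at hP ⊢
      nlinarith
  · simp only [hn, if_false] at hP a2 h2 ⊢
    have hr := hnn hn
    subst hr
    by_cases hg : ng
    · simp only [hg, if_true, true_implies] at hP a2 ⊢
      nlinarith
    · simp only [hg, if_false] at hP ⊢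
      nlinarith

theorem list_sum_le {α : Type*} (l : List α) (f g : α → ℝ) (c : ℝ)
    (h : ∀ x ∈ l, f x ≤ g x * c) : (l.map f).sum ≤ (l.map g).sum * c := by
  induction l with
  | nil => simp
  | cons x l ih =>
    simp only [List.map_cons, List.sum_cons]
    have h1 := h x List.mem_cons_self
    have h2 := ih fun y hy => h y (List.mem_cons_of_mem _ hy)
    linarith

theorem main : Pool.Agent.W211.AF.S_THIN := by
  intro hCOV hCOVS hAPR hREC al K F Q r H M π
  have hK := H.K0
  have hT : 0 ≤ T K M := T_nonneg hK M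
  have hF : 0 ≤ ∑' g, F g := tsum_nonneg H.F0
  obtain ⟨Tm, hTm⟩ : ∃ x, x = T K M := ⟨_, rfl⟩
  obtain ⟨Fn, hFn⟩ : ∃ x, x = ∑' g, F g := ⟨_, rfl⟩
  rw [← hTm] at hT
  rw [← hFn] at hF
  have hal0 : 0 ≤ al := by linarith [H.al1]
  obtain ⟨A, hA0, hA⟩ := hAPR K hK H.K2 M
  obtain ⟨R, hR⟩ : ∃ R : ℕ, ∀ s ∈ r.support, s.toWord.length ≤ R :=
    ⟨r.support.sup fun s => s.toWord.length, fun s hs =>
      Finset.le_sup (f := fun s : G => s.toWord.length) hs⟩
  have claim : ∀ i : ℕ, ∀ π : Pat, P K M π ≤ (3 / 2) ^ (π.count none) *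
      ((if negHead π = true then 3 else 1) *
      ((if none ∈ π then 12 / 1000 * Tm + 8 * Fn else 2 * Tm + 8 * Fn) +
        (9 / 10) ^ i * (A * (tl π + i * R + 1)))) := by
    intro i
    induction i with
    | zero =>
      intro π
      refine (hA π).trans (mul_le_mul_of_nonneg_left ?_ (by positivity))
      have h1 : 0 ≤ A * ((tl π : ℝ) + 1) := by positivity
      have h2 : (0 : ℝ) ≤ if none ∈ π then 12 / 1000 * Tm + 8 * Fn else 2 * Tm + 8 * Fn := by
        split_ifs <;> positivity
      have h3 : (1 : ℝ) ≤ if negHead π = true then 3 else 1 := by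
        split_ifs <;> norm_num
      simp only [pow_zero, one_mul, Nat.cast_zero, zero_mul, add_zero]
      nlinarith
    | succ i ih =>
      intro π
      obtain ⟨t, ht⟩ : ∃ t : ℝ, t = (9 / 10) ^ i * (A * (tl π + (i + 1) * R + 1)) := ⟨_, rfl⟩
      have ht0 : 0 ≤ t := by rw [ht]; positivity
      have hstep : (9 / 10 : ℝ) ^ (i + 1) * (A * (tl π + ((i + 1 : ℕ) : ℝ) * R + 1)) =
          9 / 10 * t := by
        rw [ht]; push_cast; ring
      rw [hstep]
      have hrec := hREC hCOV al K F Q r H M π
      rw [← hTm, ← hFn] at hrec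
      -- bounds for all patterns which occur
      have hle : ∀ π' : Pat, (tl π' : ℝ) ≤ tl π + R →
          (9 / 10 : ℝ) ^ i * (A * (tl π' + i * R + 1)) ≤ t := by
        intro π' h
        rw [ht]
        refine mul_le_mul_of_nonneg_left (mul_le_mul_of_nonneg_left ?_ hA0) (by positivity)
        linarith
      have hR0 : (0 : ℝ) ≤ R := Nat.cast_nonneg R
      have hgen : ∀ π' : Pat, (tl π' : ℝ) ≤ tl π + R →
          P K M π' ≤ (3 / 2) ^ (π'.count none) * (3 * (2 * Tm + 8 * Fn + t)) := by
        intro π' h
        refine (ih π').trans (mul_le_mul_of_nonneg_left ?_ (by positivity))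
        have h1 := hle π' h
        have h0 : (0 : ℝ) ≤ (9 / 10 : ℝ) ^ i * (A * (tl π' + i * R + 1)) := by positivity
        have h2 : (if none ∈ π' then 12 / 1000 * Tm + 8 * Fn else 2 * Tm + 8 * Fn) ≤
            2 * Tm + 8 * Fn := by
          split_ifs
          · linarith
          · exact le_rfl
        have h2' : (0 : ℝ) ≤ if none ∈ π' then 12 / 1000 * Tm + 8 * Fn else 2 * Tm + 8 * Fn := by
          split_ifs <;> positivity
        have h3 : (if negHead π' = true then (3 : ℝ) else 1) ≤ 3 := by
          split_ifs <;> norm_num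
        exact mul_le_mul h3 (by linarith) (by linarith) (by norm_num)
      have h9 : (1 : ℝ) ≤ (3 / 2) ^ (π.count none) := one_le_pow₀ (by norm_num)
      refine real_step (rw := (3 / 2) ^ (π.count none)) H.al2 hal0 hT hF ht0 h9 (none ∈ π)
        (negHead π = true) (fun hn => ?_) hrec ?_ (fun hn => ?_) ?_
      · rw [List.count_eq_zero_of_not_mem hn, pow_zero]
      · -- the pattern with one more wildcard
        have h1 := ih (none :: π)
        have h2 : negHead (none :: π) = false := rfl
        have h3 : (none : Option Lt) ∈ none :: π := List.mem_cons_self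
        rw [h2, if_pos h3, List.count_cons_self, tl_none_cons] at h1
        simp only [Bool.false_eq_true, if_false, one_mul] at h1
        refine h1.trans ?_
        rw [pow_succ]
        refine mul_le_mul_of_nonneg_left ?_ (by positivity)
        have h4 := hle π (by linarith)
        linarith
      · -- the tail
        match π, hn with
        | some (a, false) :: π', hn =>
          have h1 := ih π'
          have h3 : (none ∈ (some (a, false) :: π' : Pat)) ↔ none ∈ π' := by simp
          have h4 : List.count none (some (a, false) :: π' : Pat) = List.count none π' := by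
            simp
          rw [List.tail_cons, h4]
          simp only [h3]
          refine h1.trans (mul_le_mul_of_nonneg_left ?_ (by positivity))
          have h5 := hle π' (by
            have : (tl π' : ℝ) ≤ tl (some (a, false) :: π') := by
              exact_mod_cast tl_some_cons (a, false) π'
            linarith)
          have h0 : (0 : ℝ) ≤ (9 / 10 : ℝ) ^ i * (A * (tl π' + i * R + 1)) := by positivity
          have h2' : (0 : ℝ) ≤ if none ∈ π' then 12 / 1000 * Tm + 8 * Fn
              else 2 * Tm + 8 * Fn := by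
            split_ifs <;> positivity
          have h6 : (if negHead π' = true then (3 : ℝ) else 1) ≤ 3 := by
            split_ifs <;> norm_num
          exact mul_le_mul h6 (by linarith) (by linarith) (by norm_num)
      · -- the sum over `r`
        have h1 : ∀ s ∈ r.support, (fun s c => c * (((cov s.toWord.reverse π).map (P K M)).sum
            + P K M (s.toWord.map some))) s (r s) ≤
            r s * (9 * ((3 / 2) ^ (π.count none) * (2 * Tm + 8 * Fn + t))) := by
          intro s hs
          refine mul_le_mul_of_nonneg_left ?_ (H.r0 s)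
          have hlen := hR s hs
          obtain ⟨c1, c2, -, -⟩ := hCOVS s.toWord.reverse π
          obtain ⟨-, -, c3, c4⟩ := hCOVS s.toWord π
          have hlen' : (s.toWord.length : ℝ) ≤ R := by exact_mod_cast hlen
          have d1 : ((cov s.toWord.reverse π).map (P K M)).sum ≤
              ((cov s.toWord.reverse π).map (fun π' => ((3 : ℝ) / 2) ^ (π'.count none))).sum *
                (3 * (2 * Tm + 8 * Fn + t)) := by
            refine list_sum_le _ _ _ _ fun π' hπ' => hgen π' ?_
            have e1 := c2 π' hπ'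
            rw [List.length_reverse] at e1
            have e2 : (tl π' : ℝ) ≤ tl π + s.toWord.length := by exact_mod_cast e1
            linarith
          have d2 := hgen (s.toWord.map some) (by
            have e2 : (tl (s.toWord.map some) : ℝ) ≤ s.toWord.length := by exact_mod_cast c3
            have e3 : (0 : ℝ) ≤ tl π := Nat.cast_nonneg _
            linarith)
          rw [c4, pow_zero, one_mul] at d2
          have d3 : 0 ≤ 3 * (2 * Tm + 8 * Fn + t) := by positivity
          have d4 := mul_le_mul_of_nonneg_right c1 d3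
          nlinarith
        have h2 := Finset.sum_le_sum h1
        have h3 : (r.sum fun s c => c * (((cov s.toWord.reverse π).map (P K M)).sum
            + P K M (s.toWord.map some))) ≤
            (r.sum fun _ c => c) * (9 * ((3 / 2) ^ (π.count none) * (2 * Tm + 8 * Fn + t))) := by
          refine h2.trans (le_of_eq ?_)
          unfold Finsupp.sum
          rw [Finset.sum_mul]
        refine h3.trans ?_
        have h4 : 0 ≤ 9 * ((3 / 2 : ℝ) ^ (π.count none) * (2 * Tm + 8 * Fn + t)) := by positivity
        have h5 := mul_le_mul_of_nonneg_right H.r1 h4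
        linarith
  -- the limit
  have hlim : Filter.Tendsto (fun i : ℕ => (3 / 2 : ℝ) ^ (π.count none) *
      ((if negHead π = true then 3 else 1) *
      ((if none ∈ π then 12 / 1000 * Tm + 8 * Fn else 2 * Tm + 8 * Fn) +
        (9 / 10) ^ i * (A * (tl π + i * R + 1))))) Filter.atTop
      (nhds ((3 / 2 : ℝ) ^ (π.count none) * ((if negHead π = true then 3 else 1) *
      ((if none ∈ π then 12 / 1000 * Tm + 8 * Fn else 2 * Tm + 8 * Fn) + 0)))) := by
    refine Filter.Tendsto.const_mul _ (Filter.Tendsto.const_mul _ (Filter.Tendsto.const_add _ ?_))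
    have e1 : Filter.Tendsto (fun i : ℕ => (9 / 10 : ℝ) ^ i) Filter.atTop (nhds 0) :=
      tendsto_pow_atTop_nhds_zero_of_lt_one (by norm_num) (by norm_num)
    have e2 : Filter.Tendsto (fun i : ℕ => (i : ℝ) * (9 / 10 : ℝ) ^ i) Filter.atTop (nhds 0) :=
      tendsto_self_mul_const_pow_of_lt_one (by norm_num) (by norm_num)
    have e3 := (e1.const_mul (A * (tl π + 1))).add (e2.const_mul (A * R))
    simp only [mul_zero, add_zero] at e3
    refine e3.congr fun i => ?_
    ring
  have := ge_of_tendsto' hlim fun i => claim i π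
  rw [add_zero] at this
  rw [← hTm, ← hFn]
  exact this

end Pool.Agent.W459.AFThin
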