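import Pool.Agent.W997.NL.Stm

/-!
# The graph of shifts is a superconcentrator
-/

set_option autoImplicit false

namespace Pool.Agent.W459.NLSHIFT

open Finset
open Pool.Agent.W997.NL
open Pool.Agent.W997.SR (Dag)

/-- The place on level `L` of the path from place `α` to place `β` through the place `i` of the
middle level. -/
def pos (r α β i L : ℕ) : ℕ :=
  if L ≤ r then i + 2 ^ L * ((α - i) / 2 ^ L) else
    i + 2 ^ (2 * r - L) * ((β - i) / 2 ^ (2 * r - L))

theorem pos_of_ge {r α β i L : ℕ} (hα : α < 2 ^ r) (hβ : β < 2 ^ r) (hL : r ≤ L) :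
    pos r α β i L = i + 2 ^ (2 * r - L) * ((β - i) / 2 ^ (2 * r - L)) := by
  unfold pos
  split_ifs with h
  · have hLr : L = r := le_antisymm h hL
    subst hLr
    have e : 2 * L - L = L := by omega
    rw [e, Nat.div_eq_of_lt (by omega), Nat.div_eq_of_lt (by omega)]
  · rfl

theorem pos_zero {r α β i : ℕ} (hi : i ≤ α) : pos r α β i 0 = α := by
  unfold pos
  simp
  omega

theorem pos_top {r α β i : ℕ} (hα : α < 2 ^ r) (hβ : β < 2 ^ r) (hi : i ≤ β) :
    pos r α β i (2 * r) = β := by
  rw [pos_of_ge hα hβ (by omega)]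
  simp
  omega

theorem pos_lt {r α β i L : ℕ} (hα : α < 2 ^ r) (hβ : β < 2 ^ r) (hi : i ≤ α) (hi' : i ≤ β) :
    pos r α β i L < 2 ^ r := by
  unfold pos
  split_ifs with h
  · have := Nat.mul_div_le (α - i) (2 ^ L)
    omega
  · have := Nat.mul_div_le (β - i) (2 ^ (2 * r - L))
    omega

theorem step_arith (d L : ℕ) : 2 ^ L * (d / 2 ^ L) = 2 ^ (L + 1) * (d / 2 ^ (L + 1)) ∨
    2 ^ L * (d / 2 ^ L) = 2 ^ (L + 1) * (d / 2 ^ (L + 1)) + 2 ^ L := by
  have h1 : d / 2 ^ (L + 1) = d / 2 ^ L / 2 := by
    rw [pow_succ, Nat.div_div_eq_div_mul]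
  rw [h1, pow_succ]
  generalize d / 2 ^ L = q
  rcases Nat.mod_two_eq_zero_or_one q with h | h
  · left
    have : q = 2 * (q / 2) := by omega
    calc 2 ^ L * q = 2 ^ L * (2 * (q / 2)) := by rw [← this]
      _ = 2 ^ L * 2 * (q / 2) := by ring
  · right
    have : q = 2 * (q / 2) + 1 := by omega
    calc 2 ^ L * q = 2 ^ L * (2 * (q / 2) + 1) := by rw [← this]
      _ = 2 ^ L * 2 * (q / 2) + 2 ^ L := by ring

theorem pos_low {r α β i L : ℕ} (hL : L + 1 ≤ r) :
    pos r α β i L = pos r α β i (L + 1) ∨ pos r α β i L = pos r α β i (L + 1) + 2 ^ L := by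
  unfold pos
  rw [if_pos (by omega), if_pos hL]
  rcases step_arith (α - i) L with h | h
  · left
    rw [h]
  · right
    rw [h]
    ring

theorem pos_high {r α β i L : ℕ} (hα : α < 2 ^ r) (hβ : β < 2 ^ r) (hL : r ≤ L)
    (hL2 : L + 1 ≤ 2 * r) :
    pos r α β i L = pos r α β i (L + 1) ∨
      pos r α β i L + 2 ^ (2 * r - (L + 1)) = pos r α β i (L + 1) := by
  rw [pos_of_ge hα hβ hL, pos_of_ge hα hβ (by omega : r ≤ L + 1)]
  have e : 2 * r - L = 2 * r - (L + 1) + 1 := by omega
  rw [e]
  rcases step_arith (β - i) (2 * r - (L + 1)) with h | h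
  · left
    rw [h]
  · right
    rw [h]
    ring

theorem pos_strict {r α β i α' β' i' L : ℕ} (hi : i < i')
    (h1 : α - i ≤ α' - i') (h2 : β - i ≤ β' - i') :
    pos r α β i L < pos r α' β' i' L := by
  unfold pos
  split_ifs with h
  · have := Nat.mul_le_mul_left (2 ^ L) (Nat.div_le_div_right (c := 2 ^ L) h1)
    omega
  · have := Nat.mul_le_mul_left (2 ^ (2 * r - L))
      (Nat.div_le_div_right (c := 2 ^ (2 * r - L)) h2)
    omega

/-- Strictly increasing sequences of natural numbers. -/
theorem strict_gap {n : ℕ} (f : Fin n → ℕ) (hf : StrictMono f) :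
    ∀ k : ℕ, ∀ i i' : Fin n, i'.val = i.val + k → f i + k ≤ f i' := by
  intro k
  induction k with
  | zero =>
    intro i i' h
    have : i' = i := Fin.ext (by omega)
    rw [this]
    omega
  | succ k ih =>
    intro i i' h
    have hi' := i'.isLt
    have h1 := ih i ⟨i.val + k, by omega⟩ rfl
    have h2 : f ⟨i.val + k, by omega⟩ < f i' := hf (by
      rw [Fin.lt_def]
      simp only
      omega)
    omega

theorem strict_le {n : ℕ} (f : Fin n → ℕ) (hf : StrictMono f) (i : Fin n) : i.val ≤ f i := by
  have h := strict_gap f hf i.val ⟨0, by have := i.isLt; omega⟩ i (by simp)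
  omega

theorem strict_sub {n : ℕ} (f : Fin n → ℕ) (hf : StrictMono f) {i i' : Fin n} (h : i < i') :
    f i - i.val ≤ f i' - i'.val := by
  have h0 : i.val < i'.val := h
  have h1 := strict_gap f hf (i'.val - i.val) i i' (by omega)
  have := strict_le f hf i
  omega

/-- If a node without pebble at the start carries a pebble at time `t`, it was placed before. -/
theorem placed_before {Γ : Type} (C : ℕ → Finset Γ) (a : ℕ) (v : Γ) (h0 : v ∉ C a) :
    ∀ k : ℕ, v ∈ C (a + k) → ∃ t, a ≤ t ∧ t < a + k ∧ v ∉ C t ∧ v ∈ C (t + 1) := by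
  intro k
  induction k with
  | zero =>
    intro h
    exact absurd h h0
  | succ k ih =>
    intro h
    by_cases hk : v ∈ C (a + k)
    · obtain ⟨t, h1, h2, h3, h4⟩ := ih hk
      exact ⟨t, h1, by omega, h3, h4⟩
    · exact ⟨a + k, by omega, by omega, hk, h⟩

theorem main : Pool.Agent.W997.NL.S_SHIFT := by
  classical
  intro r C hC a b hlt
  by_contra hcon
  push Not at hcon
  rw [Fintype.card_fin] at hcon
  set P : Fin (2 * r + 1) × Fin (2 ^ r) → Prop :=
    fun v => ∃ t, a ≤ t ∧ t < b ∧ v ∉ C t ∧ v ∈ C (t + 1) with hP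
  -- the inputs not placed
  set A : Finset (Fin (2 ^ r)) := univ.filter (fun x => ¬ P ((shift r).inp x)) with hA
  set B : Finset (Fin (2 ^ r)) := univ.filter (fun x => P ((shift r).out x)) with hB
  have hpin : placed C a b (shift r).inp =
      (univ.filter (fun x => P ((shift r).inp x))).card := by
    unfold placed
    congr!
  have hpout : placed C a b (shift r).out = B.card := by
    unfold placed
    congr!
  have hAc : (C a).card + 1 ≤ A.card := by
    have h := card_filter_add_card_filter_not (s := (univ : Finset (Fin (2 ^ r))))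
      (fun x => P ((shift r).inp x))
    rw [card_univ, Fintype.card_fin] at h
    rw [hpin] at hcon
    have h4 : (univ.filter (fun x => P ((shift r).inp x))).card + A.card = 2 ^ r := by
      refine Eq.trans ?_ h
      congr!
    omega
  have hBc : (C a).card + 1 ≤ B.card := by
    rw [hpout] at hlt
    omega
  let ea := A.orderEmbOfCardLe hAc
  let eb := B.orderEmbOfCardLe hBc
  have hea : ∀ i, ea i ∈ A := fun i => A.orderEmbOfCardLe_mem hAc i
  have heb : ∀ i, eb i ∈ B := fun i => B.orderEmbOfCardLe_mem hBc i
  let fa : Fin ((C a).card + 1) → ℕ := fun i => (ea i).val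
  let fb : Fin ((C a).card + 1) → ℕ := fun i => (eb i).val
  have hfa : StrictMono fa := fun i i' h => ea.strictMono h
  have hfb : StrictMono fb := fun i i' h => eb.strictMono h
  have hfa1 : ∀ i, fa i < 2 ^ r := fun i => (ea i).isLt
  have hfb1 : ∀ i, fb i < 2 ^ r := fun i => (eb i).isLt
  have hfa2 : ∀ i, i.val ≤ fa i := strict_le fa hfa
  have hfb2 : ∀ i, i.val ≤ fb i := strict_le fb hfb
  let node : Fin ((C a).card + 1) → Fin (2 * r + 1) → Fin (2 * r + 1) × Fin (2 ^ r) :=
    fun i L => (L, ⟨pos r (fa i) (fb i) i.val L.val,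
      pos_lt (hfa1 i) (hfb1 i) (hfa2 i) (hfb2 i)⟩)
  have hnode : ∀ i i' : Fin ((C a).card + 1), ∀ L L' : Fin (2 * r + 1),
      i < i' → node i L ≠ node i' L' := by
    intro i i' L L' hii h
    have h1 : L = L' := congrArg Prod.fst h
    subst h1
    have h2 : pos r (fa i) (fb i) i.val L.val = pos r (fa i') (fb i') i'.val L.val :=
      congrArg (fun v => v.2.val) h
    have h3 := pos_strict (r := r) (L := L.val) (show i.val < i'.val from hii)
      (strict_sub fa hfa hii) (strict_sub fb hfb hii)
    omega
  have hex : ∃ i, ∀ L, node i L ∉ C a := by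
    by_contra hno
    push Not at hno
    choose Lf hLf using hno
    have hinj : Function.Injective (fun i => node i (Lf i)) := by
      intro i i' h
      rcases lt_trichotomy i i' with h1 | h1 | h1
      · exact absurd h (hnode i i' _ _ h1)
      · exact h1
      · exact absurd h.symm (hnode i' i _ _ h1)
    have h1 : (univ.image (fun i => node i (Lf i))).card ≤ (C a).card := by
      apply card_le_card
      intro v hv
      obtain ⟨i, -, rfl⟩ := mem_image.1 hv
      exact hLf i
    rw [card_image_of_injective _ hinj, card_univ, Fintype.card_fin] at h1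
    omega
  obtain ⟨i, hi⟩ := hex
  have hdown : ∀ k : ℕ, ∀ hk : k ≤ 2 * r, P (node i ⟨2 * r - k, by omega⟩) := by
    intro k
    induction k with
    | zero =>
      intro hk
      have h := heb i
      rw [hB, mem_filter] at h
      have h2 := h.2
      have e : node i ⟨2 * r - 0, by omega⟩ = (shift r).out (eb i) := by
        apply Prod.ext
        · rfl
        · apply Fin.ext
          exact pos_top (hfa1 i) (hfb1 i) (hfb2 i)
      rw [e]
      exact h2
    | succ k ih =>
      intro hk
      obtain ⟨t, h1, h2, h3, h4⟩ := ih (by omega)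
      have h5 := hC t _ h4 h3
      have h6 : node i ⟨2 * r - (k + 1), by omega⟩ ∈
          (shift r).G.kid (node i ⟨2 * r - k, by omega⟩) := by
        have eL : 2 * r - (k + 1) + 1 = 2 * r - k := by omega
        show _ ∈ shiftKid r _
        unfold shiftKid
        rw [mem_filter]
        refine ⟨mem_univ _, eL, ?_⟩
        by_cases hr : 2 * r - k ≤ r
        · rcases pos_low (r := r) (α := fa i) (β := fb i) (i := i.val)
            (L := 2 * r - (k + 1)) (by omega) with h | h
          · left
            apply Fin.ext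
            show pos r (fa i) (fb i) i.val (2 * r - (k + 1)) =
              pos r (fa i) (fb i) i.val (2 * r - k)
            rw [h, eL]
          · right
            left
            refine ⟨hr, ?_⟩
            show pos r (fa i) (fb i) i.val (2 * r - (k + 1)) =
              pos r (fa i) (fb i) i.val (2 * r - k) + 2 ^ (2 * r - k - 1)
            rw [h, eL]
            congr 2
        · rcases pos_high (r := r) (α := fa i) (β := fb i) (i := i.val)
            (L := 2 * r - (k + 1)) (hfa1 i) (hfb1 i) (by omega) (by omega) with h | h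
          · left
            apply Fin.ext
            show pos r (fa i) (fb i) i.val (2 * r - (k + 1)) =
              pos r (fa i) (fb i) i.val (2 * r - k)
            rw [h, eL]
          · right
            right
            refine ⟨lt_of_not_ge hr, ?_⟩
            show pos r (fa i) (fb i) i.val (2 * r - (k + 1)) + 2 ^ (2 * r - (2 * r - k)) =
              pos r (fa i) (fb i) i.val (2 * r - k)
            rw [eL] at h
            exact h
      have h7 := h5 h6
      obtain ⟨m, rfl⟩ := Nat.exists_eq_add_of_le h1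
      obtain ⟨t', h8, h9, h10, h11⟩ := placed_before C a _ (hi _) m h7
      exact ⟨t', h8, by omega, h10, h11⟩
  have hfin := hdown (2 * r) le_rfl
  have h := hea i
  rw [hA, mem_filter] at h
  apply h.2
  have e : node i ⟨2 * r - 2 * r, by omega⟩ = (shift r).inp (ea i) := by
    apply Prod.ext
    · apply Fin.ext
      show 2 * r - 2 * r = 0
      omega
    · apply Fin.ext
      show pos r (fa i) (fb i) i.val (2 * r - 2 * r) = fa i
      rw [Nat.sub_self]
      exact pos_zero (hfa2 i)
  rw [← e]
  exact hfin

end Pool.Agent.W459.NLSHIFT
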